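import Pool.Agent.H8.Tile1

namespace Pool.Agent.Results.MP_d0305a_co.Smaller
open Set Pool.Agent.H8.Tile

/-- `t` is a closed triangle in the plane with side lengths `a`, `b`, `c`. -/
def Tri (a b c : ℝ) (t : Set ℂ) : Prop :=
  ∃ A B C : ℂ, dist B C = a ∧ dist C A = b ∧ dist A B = c ∧ t = convexHull ℝ {A, B, C}

/-- Some equilateral triangle is the union of `N` triangles with sides `a`, `b`, `c` whose
interiors are pairwise disjoint. -/
def Tiles (a b c : ℝ) (N : ℕ) : Prop :=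
  ∃ (X : ℝ) (T : Set ℂ) (F : Fin N → Set ℂ), 0 < X ∧ Tri X X X T ∧ (∀ i, Tri a b c (F i)) ∧
    ⋃ i, F i = T ∧ Pairwise fun i j => Disjoint (interior (F i)) (interior (F j))

def Q (x : ℝ × ℝ) : ℝ := x.1 ^ 2 + x.1 * x.2 + x.2 ^ 2

section
variable {a b c : ℝ} (p u v : ℝ × ℝ) (g : ℝ × ℝ → ℝ × ℝ)
  (h1 : ∀ x : ℝ × ℝ, g (p + x.1 • u + x.2 • v) = x) (h2 : ∀ x, p + (g x).1 • u + (g x).2 • v = x)
  (hu : Q u = a) (hv : Q v = b) (hw : Q (u - v) = c)
include h1 h2 hu hv hw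

lemma bx (i j : ℕ) : TL (Tl Q a b c) (2 * (j + 1) * (i + 1))
    {x | 0 ≤ (g x).1 ∧ (g x).1 ≤ i + 1 ∧ 0 ≤ (g x).2 ∧ (g x).2 ≤ j + 1} :=
  (box (q := fun x => Q (x.1 • u + x.2 • v)) (fun x => by simp [Q]; ring) (by simpa) (by simpa)
    (by simpa [sub_eq_add_neg] using hw) i j).aff p u v g h1 h2 fun _ => rfl

lemma tr (k : ℕ) : TL (Tl Q a b c) ((k + 1) ^ 2)
    {x | 0 ≤ (g x).1 ∧ 0 ≤ (g x).2 ∧ (g x).1 + (g x).2 ≤ k + 1} :=
  (tri (q := fun x => Q (x.1 • u + x.2 • v)) (fun x => by simp [Q]; ring) (by simpa) (by simpa)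
    (by simpa [sub_eq_add_neg] using hw) k).aff p u v g h1 h2 fun _ => rfl
end

lemma basic : TL (Tl Q 1024 2025 4489) 7538
    {x | 0 ≤ x.1 ∧ 0 ≤ x.2 ∧ x.2 ≤ 1440 ∧ x.1 + x.2 ≤ 4489} := by
  have l := tr (0, 1440) (32, 0) (0, -45) (fun x => (x.1 / 32, (1440 - x.2) / 45))
    (fun x => by ext <;> simp <;> ring) (fun x => by ext <;> simp <;> ring)
    (by norm_num [Q] : _ = (1024 : ℝ)) (by norm_num [Q] : _ = (2025 : ℝ))
    (by norm_num [Q] : _ = (4489 : ℝ)) 31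
  have r := tr (3049, 1440) (32, -32) (-45, 0)
    (fun x => ((1440 - x.2) / 32, (4489 - x.1 - x.2) / 45))
    (fun x => by ext <;> simp <;> ring) (fun x => by ext <;> simp <;> ring)
    (by norm_num [Q] : _ = (1024 : ℝ)) (by norm_num [Q] : _ = (2025 : ℝ))
    (by norm_num [Q] : _ = (4489 : ℝ)) 44
  have m := tr (1024, 1440) (-1024 / 67, -1440 / 67) (3465 / 67, -1440 / 67)
    (fun x => ((143648 - 32 * x.1 - 77 * x.2) / 2144, (45 * x.1 - 32 * x.2) / 3015))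
    (fun x => by ext <;> simp <;> ring) (fun x => by ext <;> simp <;> ring)
    (by norm_num [Q] : _ = (1024 : ℝ)) (by norm_num [Q] : _ = (2025 : ℝ))
    (by norm_num [Q] : _ = (4489 : ℝ)) 66
  refine l.split 45 (-32) 0 (m.split (S := {x | 0 ≤ 45 * x.1 - 32 * x.2 ∧ 0 ≤ x.2 ∧ x.2 ≤ 1440 ∧
    x.1 + x.2 ≤ 4489}) 32 77 143648 r (by norm_num) ?_ ?_) (by norm_num) ?_ ?_ <;> intro x <;>
    simp only [mem_setOf_eq] <;> push_cast <;> constructor <;> intro h <;> casesm* _ ∧ _ <;>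
    (repeat' apply And.intro) <;> linarith

lemma thin (i : ℕ) : TL (Tl Q 1024 2025 4489) (64 * (i + 1) + 9248)
    {x | 0 ≤ x.1 ∧ 0 ≤ x.2 ∧ x.2 ≤ 1440 ∧ x.1 + x.2 ≤ 32 * i + 5376} := by
  have l := bx (0, 1440) (32, 0) (0, -45) (fun x => (x.1 / 32, (1440 - x.2) / 45))
    (fun x => by ext <;> simp <;> ring) (fun x => by ext <;> simp <;> ring)
    (by norm_num [Q] : _ = (1024 : ℝ)) (by norm_num [Q] : _ = (2025 : ℝ))
    (by norm_num [Q] : _ = (4489 : ℝ)) i 31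
  have r := bx (0, 1440) (0, -32) (45, 0) (fun x => ((1440 - x.2) / 32, x.1 / 45))
    (fun x => by ext <;> simp <;> ring) (fun x => by ext <;> simp <;> ring)
    (by norm_num [Q] : _ = (1024 : ℝ)) (by norm_num [Q] : _ = (2025 : ℝ))
    (by norm_num [Q] : _ = (4489 : ℝ)) 44 18
  have : (0 : ℝ) ≤ i := i.cast_nonneg
  refine l.split 1 0 (32 * i + 32) ((r.split (S := {x | 0 ≤ x.1 ∧ 0 ≤ x.2 ∧ x.2 ≤ 1440 ∧
    x.1 + x.2 ≤ 5344}) 1 0 855 (basic.mv 855 0) (by norm_num) ?_ ?_).mv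
    (32 * i + 32) 0) (by norm_num) ?_ ?_ <;> intro x <;>
    simp only [mem_setOf_eq] <;> push_cast <;> constructor <;> intro h <;> casesm* _ ∧ _ <;>
    (repeat' apply And.intro) <;> linarith

lemma trap : TL (Tl Q 1024 2025 4489) 38880
    {x | 0 ≤ x.1 ∧ 0 ≤ x.2 ∧ x.2 ≤ 4320 ∧ x.1 + x.2 ≤ 8640} :=
  (thin 102).split 0 1 1440 (((thin 57).mv 0 1440).split (S := {x | 0 ≤ x.1 ∧ 1440 ≤ x.2 ∧
    x.2 ≤ 4320 ∧ x.1 + x.2 ≤ 8640}) 0 1 2880 ((thin 12).mv 0 2880) (by norm_num) (by grind)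
    (by grind)) (by norm_num) (by grind) (by grind)

lemma whole : TL (Tl Q 1024 2025 4489) 116640 {x | 0 ≤ x.1 ∧ 0 ≤ x.2 ∧ x.1 + x.2 ≤ 12960} := by
  have r := trap.aff (q' := Q) (12960, 0) (-1, 1) (-1, 0) (fun x => (x.2, 12960 - x.1 - x.2))
    (fun x => by ext <;> simp <;> ring) (fun x => by ext <;> simp <;> ring)
    fun x => by simp [Q]; ring
  have t := trap.aff (q' := Q) (0, 12960) (0, -1) (1, -1) (fun x => (12960 - x.1 - x.2, x.1))
    (fun x => by ext <;> simp <;> ring) (fun x => by ext <;> simp <;> ring)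
    fun x => by simp [Q]; ring
  convert (trap.glue r (sep 1 1 8640 (by norm_num) (by grind) (by grind))).glue t (disj3
    (by simp only [setOf_and]
        refine .inter ?_ (.inter ?_ (.inter ?_ ?_)) <;>
          exact isClosed_le (by fun_prop) (by fun_prop))
    (sep 0 1 4320 (by norm_num) (by grind) (by grind))
    (sep (-1) 0 (-4320) (by norm_num) (by grind) (by grind))) using 1
  ext x
  simp only [mem_union, mem_preimage, mem_setOf_eq]
  clear r t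
  grind

lemma toC {a b c : ℝ} (ha : 0 ≤ a) (hb : 0 ≤ b) (hc : 0 ≤ c) {n : ℕ} {S : Set (ℝ × ℝ)}
    (H : TL (Tl Q (a ^ 2) (b ^ 2) (c ^ 2)) n S) :
    TL (Tri a b c) n {z | (z.re - z.im / √3, 2 * z.im / √3) ∈ S} := by
  have s : √3 * √3 = (3 : ℝ) := Real.mul_self_sqrt (by norm_num)
  obtain ⟨F, f1, f2⟩ := H.aff (q' := fun z : ℂ => ‖z‖ ^ 2) 0 1 ⟨1 / 2, √3 / 2⟩
    (fun z => (z.re - z.im / √3, 2 * z.im / √3))
    (fun x => by ext <;> simp <;> field_simp <;> ring)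
    (fun x => by apply Complex.ext <;> simp <;> field_simp <;> ring)
    fun x => by
      simp [Complex.sq_norm, Complex.normSq_apply, Q]
      linear_combination x.2 ^ 2 / 4 * s
  refine ⟨F, fun i => ?_, f2⟩
  obtain ⟨A, B, C, h1, h2, h3, h⟩ := f1 i
  exact ⟨A, B, C, (dist_eq_norm ..).trans ((pow_left_inj₀ (norm_nonneg _) ha two_ne_zero).1 h1),
    (dist_eq_norm ..).trans ((pow_left_inj₀ (norm_nonneg _) hb two_ne_zero).1 h2),
    (dist_eq_norm ..).trans ((pow_left_inj₀ (norm_nonneg _) hc two_ne_zero).1 h3), h⟩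

theorem result : ∃ a b c : ℕ, 0 < a ∧ 0 < b ∧ 0 < c ∧ a.Coprime b ∧ b.Coprime c ∧ a.Coprime c ∧
    c ^ 2 = a ^ 2 + b ^ 2 + a * b ∧
    Irrational (Real.arccos (((b : ℝ) ^ 2 + c ^ 2 - a ^ 2) / (2 * b * c)) / Real.pi) ∧
    {N : ℕ | Tiles a b c N} ≠
      {N : ℕ | ∃ m : ℤ, 3 * ⌈((c : ℚ) ^ 2 - a - b) / (a * b)⌉ ≤ m ∧ (N : ℤ) = m ^ 2 * (a * b)} := by
  refine ⟨32, 45, 67, by norm_num, by norm_num, by norm_num, by norm_num, by norm_num, by norm_num,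
    by norm_num, fun ⟨r, hr⟩ => ?_, fun h => ?_⟩
  · have c := Real.cos_arccos (x := (((45 : ℕ) : ℝ) ^ 2 + (67 : ℕ) ^ 2 - (32 : ℕ) ^ 2) /
      (2 * (45 : ℕ) * (67 : ℕ))) (by norm_num) (by norm_num)
    have := niven ⟨r, ((eq_div_iff Real.pi_ne_zero).1 hr).symm⟩ ⟨61 / 67, by rw [c]; norm_num⟩
    rw [c] at this
    norm_num at this
  · obtain ⟨F, f1, f2, f3⟩ := toC (a := 32) (b := 45) (c := 67) (by norm_num) (by norm_num)
      (by norm_num) (by convert whole using 2 <;> norm_num)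
    obtain ⟨G, g1, g2, -⟩ := toC (a := 12960) (b := 12960) (c := 12960) (by norm_num) (by norm_num)
      (by norm_num) (tr 0 (12960, 0) (0, 12960) (fun x => (x.1 / 12960, x.2 / 12960))
        (fun x => by ext <;> simp) (fun x => by ext <;> simp <;> ring) (by norm_num [Q])
        (by norm_num [Q]) (by norm_num [Q]) 0)
    have : 116640 ∈ {N : ℕ | Tiles (32 : ℕ) (45 : ℕ) (67 : ℕ) N} :=
      ⟨12960, G 0, F, by norm_num, g1 0, by simpa using f1, by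
        have e : ⋃ i, G i = G 0 := by
          ext; simp [Fin.exists_fin_one]
        rw [f2, ← e, g2]
        ext z
        simp only [mem_setOf_eq]
        push_cast
        constructor <;> intro h <;> casesm* _ ∧ _ <;> (repeat' apply And.intro) <;> linarith, f3⟩
    obtain ⟨m, h1, h2⟩ := h ▸ this
    rw [show ⌈_⌉ = 4 by rw [Int.ceil_eq_iff]; norm_num] at h1
    norm_num at h2
    nlinarith

end Pool.Agent.Results.MP_d0305a_co.Smaller
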